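import Pool.Agent.W206.YP.Stm

/-!
# Project YP, part SW: the specialised points are atypical
-/

set_option autoImplicit false

namespace Pool.Agent.W701.YP.SW

open MvPolynomial UpperHalfPlane H294ZP Pool.Agent.W206.CT Pool.Agent.W206.YP

/-! ### counting -/

open Classical in
/-- non-representative ports and representatives of special nodes -/
noncomputable def TT {P V ι : Type} [Fintype P] (nd : P → V) (rep : V → P) (f : ι → V)
    (T : Finset ι) : Finset P :=
  (Finset.univ.filter (fun p => p ≠ rep (nd p))) ∪ T.image (fun i => rep (f i))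

theorem mem_TT {P V ι : Type} [Fintype P] (nd : P → V) (rep : V → P) (f : ι → V)
    (T : Finset ι) (p : P) :
    p ∈ TT nd rep f T ↔ p ≠ rep (nd p) ∨ ∃ i ∈ T, rep (f i) = p := by
  classical
  unfold TT
  rw [Finset.mem_union, Finset.mem_filter, Finset.mem_image]
  simp only [Finset.mem_univ, true_and]

theorem card_TT {P V ι : Type} [Fintype P] [Fintype V] (nd : P → V) (rep : V → P)
    (h : ∀ v, nd (rep v) = v) (f : ι → V) (hf : Function.Injective f) (T : Finset ι) :
    (TT nd rep f T).card + Fintype.card V = Fintype.card P + T.card := by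
  classical
  have hrep : Function.Injective rep := fun v v' hv => by rw [← h v, ← h v', hv]
  have h1 : (TT nd rep f T).card =
      (Finset.univ.filter (fun p => p ≠ rep (nd p))).card + T.card := by
    have hinj : Function.Injective (fun i => rep (f i)) := hrep.comp hf
    unfold TT
    rw [Finset.card_union_of_disjoint, Finset.card_image_of_injective _ hinj]
    rw [Finset.disjoint_left]
    intro p hp hp'
    rw [Finset.mem_filter] at hp
    rw [Finset.mem_image] at hp'
    obtain ⟨i, _, rfl⟩ := hp'
    exact hp.2 (by rw [h])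
  have h2 : (Finset.univ.filter (fun p => p = rep (nd p))).card = Fintype.card V := by
    have h3 : (Finset.univ.filter (fun p => p = rep (nd p))) =
        (Finset.univ : Finset V).image rep := by
      ext p
      rw [Finset.mem_filter, Finset.mem_image]
      constructor
      · rintro ⟨_, hp⟩
        exact ⟨nd p, Finset.mem_univ _, hp.symm⟩
      · rintro ⟨v, _, rfl⟩
        exact ⟨Finset.mem_univ _, by rw [h]⟩
    rw [h3, Finset.card_image_of_injective _ hrep, Finset.card_univ]
  have h4 := Finset.card_filter_add_card_filter_not (s := (Finset.univ : Finset P))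
    (fun p => p = rep (nd p))
  rw [h2, Finset.card_univ] at h4
  have h5 : (Finset.univ.filter (fun p => ¬ p = rep (nd p))).card =
      (Finset.univ.filter (fun p => p ≠ rep (nd p))).card := rfl
  omega

section System

variable {ι E : Type} [Fintype ι] [Fintype E] [DecidableEq ι] [DecidableEq E]
  {D : ℕ} {r : E → ℕ}

theorem card_Ex : Fintype.card (Ex ι D) =
    Fintype.card {e : Ex ι D // ∃ b, 0 < (e.1 b : ℕ)} + 1 := by
  classical
  have h1 : Fintype.card {e : Ex ι D // ¬ ∃ b, 0 < (e.1 b : ℕ)} = 1 := by
    rw [Fintype.card_eq_one_iff]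
    refine ⟨⟨ex0, ?_⟩, ?_⟩
    · rintro ⟨b, hb⟩
      simp [ex0] at hb
    · rintro ⟨e, he⟩
      apply Subtype.ext
      apply Subtype.ext
      funext b
      apply Fin.ext
      have : ¬ 0 < (e.1 b : ℕ) := fun hb => he ⟨b, hb⟩
      simp only [ex0]
      have h2 : (e.1 b : ℕ) = 0 := by omega
      rw [h2]
      rfl
  have h2 := Fintype.card_subtype_compl (fun e : Ex ι D => ∃ b, 0 < (e.1 b : ℕ))
  have h3 := Fintype.card_subtype_le (fun e : Ex ι D => ∃ b, 0 < (e.1 b : ℕ))
  omega

theorem card_Nd : Fintype.card (Nd ι E D r) =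
    Fintype.card (Gt ι E D r) + 2 * Fintype.card ι + 1 := by
  have h1 := card_Ex (ι := ι) (D := D)
  simp only [Fintype.card_sum]
  omega

variable (ε : ∀ l, Fin (r l) → ℤ) (M : ∀ l, Fin (r l) → Ex ι D)

/-- `w_i` occurs in one port -/
theorem nd_inl (p : Gt ι E D r × Fin 3) (i : ι) (h : nd ε M p = Sum.inl i) :
    p = (Sum.inl i, 0) := by
  obtain ⟨g, k⟩ := p
  have hk : k = 0 ∨ k = 1 ∨ k = 2 := by
    fin_cases k <;> simp
  rcases g with i' | e | ⟨l, j⟩
  · rcases hk with rfl | rfl | rfl
    · have h1 : (Sum.inl i' : Nd ι E D r) = Sum.inl i := h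
      rw [Sum.inl.inj h1]
    · have h1 : (Sum.inr (Sum.inl (Sum.inl i')) : Nd ι E D r) = Sum.inl i := h
      exact absurd h1 (by simp)
    · have h1 : (Sum.inr (Sum.inl (Sum.inr i')) : Nd ι E D r) = Sum.inl i := h
      exact absurd h1 (by simp)
  · rcases hk with rfl | rfl | rfl
    · have h1 : (mn (pre e) : Nd ι E D r) = Sum.inl i := h
      exact absurd h1 (by simp [mn])
    · have h1 : (nb (ch e) : Nd ι E D r) = Sum.inl i := h
      exfalso
      revert h1
      generalize ch e = b
      rcases b with _ | (b | b) <;> simp [nb]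
    · have h1 : (mn e.1 : Nd ι E D r) = Sum.inl i := h
      exact absurd h1 (by simp [mn])
  · rcases hk with rfl | rfl | rfl
    · have h1 : (if ε l j = 1 then ps l j else ps l (nx j) : Nd ι E D r) = Sum.inl i := h
      exfalso
      split_ifs at h1 <;> simp [ps] at h1
    · have h1 : (mn (M l j) : Nd ι E D r) = Sum.inl i := h
      exact absurd h1 (by simp [mn])
    · have h1 : (if ε l j = 1 then ps l (nx j) else ps l j : Nd ι E D r) = Sum.inl i := h
      exfalso
      split_ifs at h1 <;> simp [ps] at h1

/-- the unit exponent -/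
def un (hD : 0 < D) : Ex ι D :=
  ⟨fun b => if b = none then ⟨1, by omega⟩ else 0, by
    rw [Finset.sum_eq_single none]
    · simp
      omega
    · intro b _ hb
      simp [hb]
    · simp⟩

/-- every node occurs -/
theorem nd_surj (hD : 0 < D) (v : Nd ι E D r) : ∃ p, nd ε M p = v := by
  rcases v with i | (i | i) | e | ⟨l, j⟩
  · exact ⟨(Sum.inl i, 0), rfl⟩
  · exact ⟨(Sum.inl i, 1), rfl⟩
  · exact ⟨(Sum.inl i, 2), rfl⟩
  · by_cases he : ∃ b, 0 < (e.1 b : ℕ)
    · exact ⟨(Sum.inr (Sum.inl ⟨e, he⟩), 2), rfl⟩
    · have hu : ∃ b, 0 < ((un (ι := ι) hD).1 b : ℕ) := ⟨none, by simp [un]⟩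
      refine ⟨(Sum.inr (Sum.inl ⟨un hD, hu⟩), 0), ?_⟩
      show mn (pre ⟨un hD, hu⟩) = Sum.inr (Sum.inr (Sum.inl e))
      have hch : ch ⟨un hD, hu⟩ = (none : Bs ι) := by
        have h1 : 0 < ((un (ι := ι) hD).1 (ch ⟨un hD, hu⟩) : ℕ) := Classical.choose_spec hu
        have h2 : ∀ b : Bs ι, 0 < ((un (ι := ι) hD).1 b : ℕ) → b = none := by
          intro b hb
          by_contra hne
          simp [un, hne] at hb
        exact h2 _ h1
      have : pre ⟨un hD, hu⟩ = e := by
        apply Subtype.ext
        funext b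
        apply Fin.ext
        have h2 : (e.1 b : ℕ) = 0 := by
          by_contra hne
          exact he ⟨b, Nat.pos_of_ne_zero hne⟩
        rw [h2]
        simp only [pre, hch]
        by_cases hb : b = none
        · subst hb
          simp [un]
        · simp [hb, un]
      rw [this]
      rfl
  · by_cases h : ε l j = 1
    · refine ⟨(Sum.inr (Sum.inr ⟨l, j⟩), 0), ?_⟩
      show (if ε l j = 1 then ps l j else ps l (nx j)) = _
      rw [if_pos h]
      rfl
    · refine ⟨(Sum.inr (Sum.inr ⟨l, j⟩), 2), ?_⟩
      show (if ε l j = 1 then ps l (nx j) else ps l j) = _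
      rw [if_neg h]
      rfl

end System

theorem main : S_SW := by
  intro hEQV hPN hYG ι E _ _ _ _ D r ε M w lam μ nu d m T hD hr hε htm hind hEd hm hT hdm
  have hsurj := nd_surj (D := D) (r := r) ε M hD
  choose rep hrep using hsurj
  refine ⟨hYG ι E D r ε M w lam μ nu hε htm, m + (Fintype.card ι + 1 + Fintype.card E),
    TT (nd ε M) rep (fun i : ι => (Sum.inl i : Nd ι E D r)) T, ?_, ?_, ?_⟩
  · -- transcendence degree
    obtain ⟨y, hy1, hy2⟩ := hm
    set K₀ := IntermediateField.adjoin Qb (Set.range w) with hK₀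
    have hy' : AlgebraicIndependent Qb (fun i : Fin m => (⟨y i, hy2 i⟩ : K₀)) := by
      have h1 := AlgHom.algebraicIndependent_iff (x := fun i : Fin m => (⟨y i, hy2 i⟩ : K₀))
        K₀.val (fun a b hab => Subtype.ext hab)
      exact h1.1 hy1
    have hsum := hy'.sumElim_comp hind
    let eq1 : Fin (m + (Fintype.card ι + 1 + Fintype.card E)) ≃ (Option ι ⊕ E) ⊕ Fin m :=
      Fintype.equivOfCardEq (by
        simp only [Fintype.card_sum, Fintype.card_option, Fintype.card_fin]
        omega)
    refine ⟨_, hsum.comp eq1 eq1.injective, fun k => ?_⟩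
    set K := IntermediateField.adjoin Qb (Set.range
      (fun p => val ε M w lam μ nu (nd ε M p))) with hK
    have hmem : ∀ v : Nd ι E D r, val ε M w lam μ nu v ∈ K := by
      intro v
      have h1 : val ε M w lam μ nu (nd ε M (rep v)) ∈ K :=
        IntermediateField.subset_adjoin _ _ ⟨rep v, rfl⟩
      rwa [hrep] at h1
    rw [Function.comp_apply]
    rcases eq1 k with ((o | l) | j)
    · rcases o with _ | i
      · have h1 := hmem (mn ex0)
        have h2 : val ε M w lam μ nu (mn ex0 : Nd ι E D r) = μ := by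
          show mo w lam μ ex0 = μ
          simp [mo, ex0]
        rw [h2] at h1
        exact h1
      · exact hmem (Sum.inr (Sum.inl (Sum.inl i)))
    · have h1 := hmem (ps l ⟨0, hr l⟩)
      have h2 : val ε M w lam μ nu (ps l ⟨0, hr l⟩ : Nd ι E D r) = nu l := by
        show nu l + psum (tm ε M w lam μ l) ⟨0, hr l⟩ = nu l
        rw [psum_zero _ _ rfl, add_zero]
      rw [h2] at h1
      exact h1
    · show y j ∈ K
      have h3 : K₀ ≤ K := by
        rw [hK₀, IntermediateField.adjoin_le_iff]
        rintro _ ⟨i, rfl⟩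
        exact hmem (Sum.inl i)
      exact h3 (hy2 j)
  · -- relations
    intro t ht
    rw [mem_TT] at ht
    rcases ht with ht | ⟨i, hi, rfl⟩
    · right
      obtain ⟨N, hN, hNN⟩ := hEQV.1 (val ε M w lam μ nu (nd ε M t))
      obtain ⟨F, -, hF⟩ := hPN N hN
      refine ⟨rep (nd ε M t), ?_, F, ⟨N, hN, hF⟩, ?_⟩
      · rw [mem_TT]
        rintro (h | ⟨i, hi, h⟩)
        · exact h (by rw [hrep])
        · have h1 : nd ε M t = Sum.inl i := by
            rw [← hrep (nd ε M t), ← h, hrep]
          have h2 := nd_inl ε M t i h1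
          have h3 := nd_inl ε M (rep (nd ε M t)) i (by rw [hrep, h1])
          exact ht (h2.trans h3.symm)
      · rw [hF]
        simp only [hrep]
        exact hNN
    · rcases hT i hi with ⟨c, hc, hcw⟩ | ⟨u, hu, F, hF, hFu⟩
      · left
        refine ⟨c, hc, ?_⟩
        simp only [hrep]
        exact hcw
      · right
        refine ⟨rep (Sum.inl u), ?_, F, hF, ?_⟩
        · rw [mem_TT]
          rintro (h | ⟨i', hi', h⟩)
          · exact h (by rw [hrep])
          · have h1 : (Sum.inl i' : Nd ι E D r) = Sum.inl u := by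
              have := congrArg (nd ε M) h
              simpa only [hrep] using this
            rw [Sum.inl.inj h1] at hi'
            exact hu hi'
        · simp only [hrep]
          exact hFu
  · -- counting
    have h1 := card_TT (nd ε M) rep hrep (fun i : ι => (Sum.inl i : Nd ι E D r))
      Sum.inl_injective T
    have h2 := card_Nd (ι := ι) (E := E) (D := D) (r := r)
    have h3 : Fintype.card (Gt ι E D r × Fin 3) = Fintype.card (Gt ι E D r) * 3 := by
      rw [Fintype.card_prod, Fintype.card_fin]
    rw [h2, h3] at h1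
    omega

end Pool.Agent.W701.YP.SW
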